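import Pool.Agent.X26.LF.Stm

/-!
# Backup for LF_BAD
-/

set_option autoImplicit false

namespace Pool.Agent.X122.LF

open Finset Pool.Agent.X26.LF

/-- coefficient vectors -/
def dv {m N : ℕ} (v : Fin m → ℤ) (p : ℕ) (L : Finset (Fin m)) (κ : Fin m → Fin N) (i : Fin N) : ZMod p :=
  ∑ k ∈ L, if κ k = i then (v k : ZMod p) else 0

theorem dv_sum {m N : ℕ} (v : Fin m → ℤ) (p : ℕ) (L : Finset (Fin m)) (κ : Fin m → Fin N)
    (x : Fin N → ZMod p) : ∑ i, dv v p L κ i * x i = ∑ k ∈ L, (v k : ZMod p) * x (κ k) := by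
  unfold dv
  simp only [Finset.sum_mul]
  rw [Finset.sum_comm]
  refine Finset.sum_congr rfl fun k _ => ?_
  simp [ite_mul]

theorem dv_inj {m N : ℕ} (v : Fin m → ℤ) (p : ℕ) (κ : Fin m → Fin N) (hκ : Function.Injective κ) (i : Fin m) :
    dv v p univ κ (κ i) = v i := by
  unfold dv
  simp [hκ.eq_iff]

theorem core (hC : S_CNT) {m p N : ℕ} [Fact p.Prime] (u v : Fin m → ℤ) (A : Finset (ZMod p)) (s : ZMod p)
    (hm : 1 ≤ m) (hNP : NP u v p) (hF : Free v p A) (ι : Fin m ↪ Fin N) (K L : Finset (Fin m))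
    (a : Fin m → ZMod p) (ha : ∀ k ∈ K, a k ∈ A) (κ : Fin m → Fin N) :
    p ^ 2 * (univ.filter fun x : Fin N → ZMod p => ∑ j, (u j : ZMod p) * x (ι j) = s ∧
      ∑ k ∈ K, (v k : ZMod p) * a k + ∑ k ∈ L, (v k : ZMod p) * x (κ k) = 1).card ≤ p ^ N := by
  by_cases hE : (univ.filter fun x : Fin N → ZMod p => ∑ j, (u j : ZMod p) * x (ι j) = s ∧
      ∑ k ∈ K, (v k : ZMod p) * a k + ∑ k ∈ L, (v k : ZMod p) * x (κ k) = 1).card = 0
  · rw [hE]
    simp
  obtain ⟨x0, hx0⟩ := Finset.card_ne_zero.1 hE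
  rw [Finset.mem_filter] at hx0
  have hc : dv u p univ ι ≠ 0 := by
    intro h
    have h1 := congrFun h (ι ⟨0, hm⟩)
    rw [dv_inj u p ι ι.injective] at h1
    exact hNP.1 _ h1
  have hd : ¬ ∃ l, dv v p L κ = fun i => l * dv u p univ ι i := by
    rintro ⟨l, hl⟩
    by_cases hl0 : l = 0
    · have h1 : ∑ k ∈ L, (v k : ZMod p) * x0 (κ k) = 0 := by
        rw [← dv_sum, hl, hl0]
        simp
      have h2 := hx0.2.2
      rw [h1, add_zero] at h2
      exact hF K a ha h2
    · have h1 : ∀ j, ∃ k, k ∈ L ∧ κ k = ι j := by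
        intro j
        by_contra hcon
        push Not at hcon
        have h2 : dv v p L κ (ι j) = 0 := Finset.sum_eq_zero fun k hk => if_neg (hcon k hk)
        rw [hl] at h2
        simp only [dv_inj u p ι ι.injective] at h2
        rcases mul_eq_zero.1 h2 with h3 | h3
        · exact hl0 h3
        · exact hNP.1 _ h3
      choose f hfL hf using h1
      have finj : Function.Injective f := fun j j' h => ι.injective (by rw [← hf j, ← hf j', h])
      have fbij := Finite.injective_iff_bijective.1 finj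
      have hLu : L = univ := by
        ext i
        obtain ⟨j, rfl⟩ := fbij.2 i
        simp [hfL j]
      have hκ : ∀ i, κ i = ι ((Equiv.ofBijective f fbij).symm i) := by
        intro i
        obtain ⟨j, rfl⟩ := fbij.2 i
        rw [hf]
        congr 1
        exact ((Equiv.ofBijective f fbij).symm_apply_apply j).symm
      have hκi : Function.Injective κ := by
        intro i i' h
        rw [hκ, hκ] at h
        exact (Equiv.ofBijective f fbij).symm.injective (ι.injective h)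
      apply hNP.2 (Equiv.ofBijective f fbij).symm l
      intro i
      have h3 := congrFun hl (κ i)
      rw [hLu, dv_inj v p κ hκi] at h3
      simp only [hκ i] at h3
      rw [dv_inj u p ι ι.injective] at h3
      exact h3
  have h := (hC p N (dv u p univ ι) (dv v p L κ) s (1 - ∑ k ∈ K, (v k : ZMod p) * a k) hc).2 hd
  rw [← h]
  refine Nat.mul_le_mul_left _ (Finset.card_le_card fun x hx => ?_)
  rw [Finset.mem_filter] at hx ⊢
  refine ⟨Finset.mem_univ _, ?_, ?_⟩
  · rw [dv_sum]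
    exact hx.2.1
  · rw [dv_sum]
    exact eq_sub_of_add_eq' hx.2.2

theorem t_BAD : S_BAD := by
  intro hC m p N _ u v A s hm hNP hF
  classical
  let Cs : (Fin m ↪ Fin N) → Fin m → Fin m → Finset (Fin m → (A ⊕ Fin N)) := fun ι j k =>
    Fintype.piFinset fun i => if i = k then {Sum.inr (ι j)} else univ
  let aF : (Fin m → (A ⊕ Fin N)) → Fin m → ZMod p := fun c i => Sum.elim (fun a : A => (a : ZMod p)) (fun _ : Fin N => (0 : ZMod p)) (c i)
  let κF : Fin N → (Fin m → (A ⊕ Fin N)) → Fin m → Fin N := fun j0 c i => Sum.elim (fun _ : A => j0) (fun i : Fin N => i) (c i)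
  let E : (Fin m ↪ Fin N) → (Fin m × Fin m × Finset (Fin m) × Finset (Fin m)) → (Fin m → (A ⊕ Fin N)) →
      Finset (Fin N → ZMod p) := fun ι q c =>
    if (∀ k ∈ q.2.2.1, aF c k ∈ A) then univ.filter fun x : Fin N → ZMod p => ∑ j, (u j : ZMod p) * x (ι j) = s ∧
      ∑ k ∈ q.2.2.1, (v k : ZMod p) * aF c k + ∑ k ∈ q.2.2.2, (v k : ZMod p) * x (κF (ι q.1) c k) = 1 else ∅
  have hEle : ∀ ι q c, p ^ 2 * (E ι q c).card ≤ p ^ N := by
    intro ι q c
    by_cases h : ∀ k ∈ q.2.2.1, aF c k ∈ A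
    · simp only [E, if_pos h]
      exact core hC u v A s hm hNP hF ι q.2.2.1 q.2.2.2 (aF c) h (κF (ι q.1) c)
    · simp only [E, if_neg h]
      simp
  have hsub : (univ.filter fun x : Fin N → ZMod p => ∃ ι : Fin m ↪ Fin N,
      ∑ j, (u j : ZMod p) * x (ι j) = s ∧ ∃ j, Bad v p A x (ι j)) ⊆
      univ.biUnion fun ι => univ.biUnion fun q : (Fin m × Fin m × Finset (Fin m) × Finset (Fin m)) =>
        (Cs ι q.1 q.2.1).biUnion fun c => E ι q c := by
    intro x hx
    rw [Finset.mem_filter] at hx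
    obtain ⟨-, ι, h1, j, K, L, a, κ, hKL, ha, ⟨k, hkL, hk⟩, h2⟩ := hx
    rw [Finset.mem_biUnion]
    refine ⟨ι, Finset.mem_univ _, ?_⟩
    rw [Finset.mem_biUnion]
    refine ⟨(j, k, K, L), Finset.mem_univ _, ?_⟩
    rw [Finset.mem_biUnion]
    have hkK : k ∉ K := fun h => Finset.disjoint_left.1 hKL h hkL
    let c : Fin m → (A ⊕ Fin N) := fun i => if h : i ∈ K then Sum.inl ⟨a i, ha i h⟩ else
      (if i ∈ L then Sum.inr (κ i) else Sum.inr (ι j))
    have hcK : ∀ i ∈ K, aF c i = a i := by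
      intro i hi
      simp only [aF, c, dif_pos hi, Sum.elim_inl]
    have hcL : ∀ i ∈ L, κF (ι j) c i = κ i := by
      intro i hi
      have hiK : i ∉ K := fun h => Finset.disjoint_left.1 hKL h hi
      simp only [κF, c, dif_neg hiK, if_pos hi, Sum.elim_inr]
    refine ⟨c, ?_, ?_⟩
    · simp only [Cs]
      rw [Fintype.mem_piFinset]
      intro i
      by_cases hik : i = k
      · rw [if_pos hik, Finset.mem_singleton, hik]
        simp only [c, dif_neg hkK, if_pos hkL, hk]
      · rw [if_neg hik]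
        exact Finset.mem_univ _
    · have h3 : ∀ i ∈ K, aF c i ∈ A := fun i hi => by
        rw [hcK i hi]
        exact ha i hi
      simp only [E, if_pos h3]
      rw [Finset.mem_filter]
      refine ⟨Finset.mem_univ _, h1, ?_⟩
      rw [Finset.sum_congr rfl fun i hi => by rw [hcK i hi], ← h2]
      congr 1
      exact Finset.sum_congr rfl fun i hi => by rw [hcL i hi]
  have hCs : ∀ ι j k, (Cs ι j k).card = (A.card + N) ^ (m - 1) := by
    intro ι j k
    simp only [Cs]
    rw [Fintype.card_piFinset, ← Finset.mul_prod_erase univ _ (Finset.mem_univ k), if_pos rfl,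
      Finset.card_singleton, one_mul, Finset.prod_congr rfl (g := fun _ => A.card + N)]
    · rw [Finset.prod_const, Finset.card_erase_of_mem (Finset.mem_univ k), Finset.card_univ, Fintype.card_fin]
    · intro i hi
      rw [if_neg (Finset.ne_of_mem_erase hi), Finset.card_univ, Fintype.card_sum, Fintype.card_coe,
        Fintype.card_fin]
  have hι : Fintype.card (Fin m ↪ Fin N) ≤ (A.card + N) ^ m := by
    rw [Fintype.card_embedding_eq, Fintype.card_fin, Fintype.card_fin]
    exact le_trans (Nat.descFactorial_le_pow _ _) (Nat.pow_le_pow_left (by omega) _)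
  calc p ^ 2 * _ ≤ p ^ 2 * _ := Nat.mul_le_mul_left _ (Finset.card_le_card hsub)
    _ ≤ p ^ 2 * ∑ ι : Fin m ↪ Fin N, ∑ q : (Fin m × Fin m × Finset (Fin m) × Finset (Fin m)),
        ∑ c ∈ Cs ι q.1 q.2.1, (E ι q c).card := by
      refine Nat.mul_le_mul_left _ (le_trans Finset.card_biUnion_le (Finset.sum_le_sum fun ι _ => ?_))
      refine le_trans Finset.card_biUnion_le (Finset.sum_le_sum fun q _ => ?_)
      exact Finset.card_biUnion_le
    _ = ∑ ι : Fin m ↪ Fin N, ∑ q : (Fin m × Fin m × Finset (Fin m) × Finset (Fin m)),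
        ∑ c ∈ Cs ι q.1 q.2.1, p ^ 2 * (E ι q c).card := by
      simp only [Finset.mul_sum]
    _ ≤ ∑ ι : Fin m ↪ Fin N, ∑ q : (Fin m × Fin m × Finset (Fin m) × Finset (Fin m)),
        ∑ c ∈ Cs ι q.1 q.2.1, p ^ N := by
      refine Finset.sum_le_sum fun ι _ => Finset.sum_le_sum fun q _ => Finset.sum_le_sum fun c _ => hEle ι q c
    _ = Fintype.card (Fin m ↪ Fin N) * (m ^ 2 * 4 ^ m * (A.card + N) ^ (m - 1) * p ^ N) := by
      simp only [Finset.sum_const, hCs, smul_eq_mul, Finset.card_univ, Fintype.card_prod, Fintype.card_fin,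
        Fintype.card_finset]
      have h4 : (4 : ℕ) ^ m = 2 ^ m * 2 ^ m := by
        rw [← Nat.mul_pow]
      rw [h4]
      ring
    _ ≤ (A.card + N) ^ m * (m ^ 2 * 4 ^ m * (A.card + N) ^ (m - 1) * p ^ N) := Nat.mul_le_mul_right _ hι
    _ = m ^ 2 * 4 ^ m * (A.card + N) ^ (2 * m - 1) * p ^ N := by
      have h5 : 2 * m - 1 = m + (m - 1) := by omega
      rw [h5, pow_add]
      ring

end Pool.Agent.X122.LF
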